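import Pool.Agent.ANO5.A1.Defs
import Pool.Agent.ANO2.Defs

/-!
# ANO5: Anosov diffeomorphisms of `M = S₁ × ⋯ × S_r × N`

`X r` is the universal cover of `M`, `Fib` contains the universal cover of `N` with its deck group
(a torus factor of `M` is part of `N`).  The closed surfaces and their maps (`ClosedSurface`,
`SurfaceMap`) are those of `Pool.Agent.ANO2`.
-/

set_option autoImplicit false

open scoped UpperHalfPlane MatrixGroups
open Set Filter Topology

namespace Pool.Agent.ANO5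

export Pool.Agent.ANO2 (ClosedSurface SurfaceMap)

end Pool.Agent.ANO5

namespace Pool.Agent.ANO5.A2

open Pool.Agent.ANO5.A1

variable [Fib] {r : ℕ}

/-- Deck transformations of `X r → S₁ × ⋯ × S_r × N`. -/
def IsDeck (S : Fin r → ClosedSurface) (g : X r → X r) : Prop :=
  ∃ (γ : Fin r → SL(2, ℝ)) (δ : Equiv.Perm Fib.W), (∀ i, γ i ∈ (S i).Γ) ∧ δ ∈ Fib.Γ ∧
    ∀ p, g p = (fun i => γ i • p.1 i, δ p.2)

/-- `G : X → X` descends to a continuous map of `M` which is homotopic to the map induced by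
`G₀`. -/
def Homotopic (S : Fin r → ClosedSurface) (G₀ G : X r → X r) : Prop :=
  ∀ g, IsDeck S g → ∃ g', IsDeck S g' ∧ G₀ ∘ g = g' ∘ G₀ ∧ G ∘ g = g' ∘ G

/-- `F` is a lift to the universal cover `X r` of a `C¹` Anosov diffeomorphism of the closed
manifold `M = S₁ × ⋯ × S_r × N`:

* `F` is a `C¹` diffeomorphism which normalises the group of deck transformations;
* there is a continuous splitting of the tangent bundle of `M`, given by the projections `P p` of
  the tangent space at `p` onto `E^u` (with kernel `E^s`), invariant under deck transformations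
  and under `F`, and constants `C > 0`, `0 < μ < 1` such that `‖DFⁿ v‖ ≤ C μⁿ ‖v‖` for
  `v ∈ E^s` and `‖DF⁻ⁿ v‖ ≤ C μⁿ ‖v‖` for `v ∈ E^u`, `n ≥ 0`. -/
def IsAnosovLift (S : Fin r → ClosedSurface) (F : X r ≃ₜ X r) : Prop :=
  ContDiffOn ℝ 1 (loc F) (dom r) ∧ ContDiffOn ℝ 1 (loc F.symm) (dom r) ∧
  (∀ g, IsDeck S g → ∃ g', IsDeck S g' ∧ F ∘ g = g' ∘ F) ∧
  (∀ g', IsDeck S g' → ∃ g, IsDeck S g ∧ F ∘ g = g' ∘ F) ∧
  ∃ P : X r → (E r →L[ℝ] E r), Continuous P ∧ (∀ p, P p ∘L P p = P p) ∧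
    (∀ g, IsDeck S g → ∀ p, P (g p) ∘L tmap g p = tmap g p ∘L P p) ∧
    (∀ p, P (F p) ∘L tmap F p = tmap F p ∘L P p) ∧
    ∃ C μ : ℝ, 0 < C ∧ 0 < μ ∧ μ < 1 ∧ ∀ (n : ℕ) (p : X r) (v : E r),
      (P p v = 0 → tnorm ((F ^ n) p) (tmap (F ^ n : X r ≃ₜ X r) p v) ≤ C * μ ^ n * tnorm p v) ∧
      (P p v = v → tnorm ((F ^ n).symm p) (tmap (F ^ n : X r ≃ₜ X r).symm p v) ≤
        C * μ ^ n * tnorm p v)

/-- The surfaces of a family of surface maps. -/
def surf (S : Fin r → SurfaceMap) (i : Fin r) : ClosedSurface := (S i).toClosedSurface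

end Pool.Agent.ANO5.A2
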